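import Pool.Agent.Work.MP_113634_past.PastD
import Pool.Agent.Work.PS.MainB

/-!
# Pasts of typical odd numbers: final statement (helper2)
-/

set_option autoImplicit false

namespace Pool.Agent.Work.MP_113634_past

open Finset
open Pool.Agent.Work.MP_113634_nt (sstar usum usum_mul usum_prime)
open scoped Classical

theorem wb : ∃ δ : ℝ, 0 < δ ∧ δ ≤ 1 ∧ WB δ := by
  obtain ⟨δ0, c, hδ0, hc, r, hgr, hwin⟩ := Pool.Agent.PS.main_winb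
  refine ⟨min δ0 1, lt_min hδ0 one_pos, min_le_right _ _, fun ε hε => ?_⟩
  obtain ⟨X0, hX0⟩ := hwin ε hε
  refine ⟨X0 + 1, fun X M hX hXM hM => ?_⟩
  have hX1 : (1 : ℝ) ≤ X := by exact_mod_cast (by omega : 1 ≤ X)
  have h1 := hX0 X M (by omega) hXM hM
  refine le_trans ?_ (h1.trans (Real.rpow_le_rpow_of_exponent_le hX1 (by linarith [min_le_left δ0 1])))
  have hsub : (Ioc M (M + X / 8)).filter (fun m => Even m ∧
      ∑ a ∈ Ioc (X / 4) (X / 2), thn a * thn (m - a) < (X : ℝ) ^ (1 - ε))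
      ⊆ (Ioc M (M + X / 8)).filter (fun m => Even m ∧
        (∑ a ∈ Ioc (X / 4) (X / 2), Pool.Agent.PS.th a * Pool.Agent.PS.th (m - a) < (X : ℝ) ^ (1 - ε) ∨
        ¬ r X ∣ m ∧ ∑ a ∈ Ioc (X / 4) (X / 2), Pool.Agent.PS.th a * Pool.Agent.PS.th (m - a)
          < c * ((m : ℝ) / m.totient) * X)) := by
    intro m hm
    rw [mem_filter] at hm ⊢
    exact ⟨hm.1, hm.2.1, Or.inl hm.2.2⟩
  exact_mod_cast card_le_card hsub

/-- **Pasts of typical odd numbers.** -/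
theorem pasts : (∀ m k : ℕ, 2 ≤ m → (∀ n, sstar^[k] n = m → n ≤ m ^ 2 ^ k) ∧
      ((Icc 1 (m ^ 2 ^ k)).filter fun n => sstar^[k] n = m).card ≤ m ^ (2 ^ k - 1)) ∧
    ∃ δ : ℝ, 0 < δ ∧ ∀ η : ℝ, 0 < η → ∃ C : ℝ, 0 < C ∧ ∀ x : ℕ, 1 ≤ x →
      (((Icc 1 x).filter fun m : ℕ => Odd m ∧ ¬ ((∀ k : ℕ, (m : ℝ) ^ ((1 - η) * (2 ^ k - 1)) ≤
          (((Icc 1 (m ^ 2 ^ k)).filter fun n => sstar^[k] n = m).card : ℝ)) ∧
        ∃ u : ℕ → ℕ, u 0 = m ∧ StrictMono u ∧ ∀ i, sstar (u (i + 1)) = u i)).card : ℝ)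
        ≤ C * (x : ℝ) ^ (1 - δ) := by
  refine ⟨fun m k hm => ⟨fun n hn => ((upper k m hm).1 n hn).1, (upper k m hm).2⟩, ?_⟩
  obtain ⟨δ, h1, h2, h3⟩ := wb
  exact ⟨δ / 2, by positivity, fun η hη => pasts_of h1 h2 h3 η hη⟩

end Pool.Agent.Work.MP_113634_past
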