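import Pool.Agent.Work.MP_113634_nt.Unitary

/-!
# Pasts of typical odd numbers under the unitary aliquot map (helper2)

`thn`     : weight of the primes
`WB δ`    : the power saving exceptional set of Montgomery and Vaughan, with the number of representations
`Pr m`    : the odd `n ≤ m ^ 2` with `s*(n) = m` and `m ^ 2 ≤ 100 n`
`T η j m` : `m` has a full tree of depth `j` of such preimages
-/

set_option autoImplicit false

namespace Pool.Agent.Work.MP_113634_past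

open Finset
open Pool.Agent.Work.MP_113634_nt (sstar usum usum_mul usum_prime)
open scoped Classical

/-- the weight of the primes -/
noncomputable def thn (n : ℕ) : ℝ := if n.Prime then Real.log n else 0

/-- the exceptional set in windows -/
def WB (δ : ℝ) : Prop := ∀ ε : ℝ, 0 < ε → ∃ X0 : ℕ, ∀ X M : ℕ, X0 ≤ X → X ≤ M →
  (M : ℝ) ≤ X * (Real.log X) ^ 2 →
  (((Ioc M (M + X / 8)).filter (fun m => Even m ∧
    ∑ a ∈ Ioc (X / 4) (X / 2), thn a * thn (m - a) < (X : ℝ) ^ (1 - ε))).card : ℝ) ≤ (X : ℝ) ^ (1 - δ)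

/-- the preimages which we use -/
noncomputable def Pr (m : ℕ) : Finset ℕ :=
  (Icc 1 (m ^ 2)).filter fun n => Odd n ∧ sstar n = m ∧ m ^ 2 ≤ 100 * n

/-- `m` has a full tree of depth `j` -/
noncomputable def T (η : ℝ) : ℕ → ℕ → Prop
  | 0, m => Odd m
  | j + 1, m => Odd m ∧ (m : ℝ) ^ (1 - η) ≤ (((Pr m).filter fun n => T η j n).card : ℝ)

theorem T_anti (η : ℝ) : ∀ j m, T η (j + 1) m → T η j m := by
  intro j
  induction j with
  | zero => intro m h; exact h.1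
  | succ j ih =>
    intro m h
    refine ⟨h.1, h.2.trans ?_⟩
    exact_mod_cast card_le_card (fun n hn => by
      rw [mem_filter] at hn ⊢
      exact ⟨hn.1, ih n hn.2⟩)

theorem T_mono {η : ℝ} {i j : ℕ} (h : i ≤ j) {m : ℕ} (hT : T η j m) : T η i m := by
  induction j, h using Nat.le_induction with
  | base => exact hT
  | succ j _ ih => exact ih (T_anti η j m hT)

theorem T_odd {η : ℝ} {j m : ℕ} (hT : T η j m) : Odd m := T_mono (Nat.zero_le j) hT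

/-! ### The preimages `p q` -/

/-- the primes `p` with `e - p` prime -/
noncomputable def PQ (X e : ℕ) : Finset ℕ :=
  (Ioc (X / 4) (X / 2)).filter fun p => p.Prime ∧ (e - p).Prime

theorem PQ_card (X e i : ℕ) (he : e ≤ 2 ^ (i + 4)) (hX : X / 2 ≤ e) :
    ∑ a ∈ Ioc (X / 4) (X / 2), thn a * thn (e - a) ≤ (PQ X e).card * ((i : ℝ) + 4) ^ 2 := by
  have hlog : ∀ n : ℕ, n ≤ e → Real.log n ≤ (i : ℝ) + 4 := by
    intro n hn
    rcases Nat.eq_zero_or_pos n with h0 | h0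
    · rw [h0, Nat.cast_zero, Real.log_zero]
      positivity
    · have h1 : (n : ℝ) ≤ (2 : ℝ) ^ (i + 4) := by exact_mod_cast hn.trans he
      have h2 := Real.log_le_log (by exact_mod_cast h0) h1
      rw [Real.log_pow] at h2
      have h3 : Real.log 2 ≤ 1 := by linarith [Real.log_two_lt_d9]
      have h4 : (0 : ℝ) ≤ ((i + 4 : ℕ) : ℝ) := Nat.cast_nonneg _
      have h5 : ((i + 4 : ℕ) : ℝ) = i + 4 := by push_cast; ring
      nlinarith
  rw [PQ, card_filter, Nat.cast_sum, sum_mul]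
  refine sum_le_sum fun a ha => ?_
  rw [mem_Ioc] at ha
  by_cases h : a.Prime ∧ (e - a).Prime
  · rw [if_pos h, Nat.cast_one, one_mul]
    unfold thn
    rw [if_pos h.1, if_pos h.2, sq]
    exact mul_le_mul (hlog a (by omega)) (hlog (e - a) (by omega)) (Real.log_natCast_nonneg _)
      (by positivity)
  · rw [if_neg h, Nat.cast_zero, zero_mul]
    unfold thn
    rw [not_and_or] at h
    rcases h with h | h
    · rw [if_neg h, zero_mul]
    · rw [if_neg h, mul_zero]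

theorem sstar_pq {p q : ℕ} (hp : p.Prime) (hq : q.Prime) (h : p < q) :
    sstar (p * q) = p + q + 1 := by
  unfold sstar
  rw [usum_mul hp.pos hq.pos ((Nat.coprime_primes hp hq).2 h.ne), usum_prime hp, usum_prime hq]
  have : (p + 1) * (q + 1) = p * q + (p + q + 1) := by ring
  rw [this, Nat.add_sub_cancel_left]

theorem PQ_le (Z e : ℕ) (hZ : 2 ≤ Z) (h1 : 8 * Z < e) (h2 : e ≤ 16 * Z) :
    (PQ (4 * Z) e).card ≤ (Pr (e + 1)).card := by
  apply card_le_card_of_injOn (fun p => p * (e - p))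
  · intro p hp
    rw [mem_coe, PQ, mem_filter, mem_Ioc] at hp
    obtain ⟨⟨a1, a2⟩, a3, a4⟩ := hp
    have b1 : 4 * Z / 4 = Z := by omega
    have b2 : 4 * Z / 2 = 2 * Z := by omega
    rw [b1] at a1
    rw [b2] at a2
    obtain ⟨q, hq⟩ : ∃ q, e = p + q := ⟨e - p, by omega⟩
    have hq' : e - p = q := by omega
    rw [mem_coe, Pr, mem_filter, mem_Icc]
    simp only
    rw [hq'] at a4 ⊢
    have c1 : 1 ≤ p * q := Nat.mul_pos a3.pos a4.pos
    have c2 : p * q ≤ (e + 1) ^ 2 := by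
      rw [hq, sq]
      exact Nat.mul_le_mul (by omega) (by omega)
    refine ⟨⟨c1, c2⟩, ?_, ?_, ?_⟩
    · exact (a3.odd_of_ne_two (by omega)).mul (a4.odd_of_ne_two (by omega))
    · rw [sstar_pq a3 a4 (by omega), hq]
    · have c3 : Z * (6 * Z) ≤ p * q := Nat.mul_le_mul (by omega) (by omega)
      have c4 : (e + 1) ^ 2 ≤ (17 * Z) ^ 2 := Nat.pow_le_pow_left (by omega) 2
      have c5 : (17 * Z) ^ 2 = 289 * Z ^ 2 := by ring
      have c6 : Z * (6 * Z) = 6 * Z ^ 2 := by ring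
      rw [c6] at c3
      rw [c5] at c4
      omega
  · intro p hp p' hp' h
    rw [mem_coe, PQ, mem_filter, mem_Ioc] at hp hp'
    obtain ⟨⟨a1, a2⟩, a3, a4⟩ := hp
    obtain ⟨⟨b1, b2⟩, b3, b4⟩ := hp'
    simp only at h
    have h2 : p ∣ p' * (e - p') := ⟨e - p, h.symm⟩
    rcases (Nat.Prime.dvd_mul a3).1 h2 with h3 | h3
    · exact (Nat.prime_dvd_prime_iff_eq a3 b3).1 h3
    · have := (Nat.prime_dvd_prime_iff_eq a3 b4).1 h3
      omega

/-- `64 i ^ 2 ≤ 2 ^ (a i)` for large `i` -/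
theorem ev_sq (a : ℝ) (ha : 0 < a) : ∃ i0 : ℕ, ∀ i : ℕ, i0 ≤ i → 64 * (i : ℝ) ^ 2 ≤ (2 : ℝ) ^ ((i : ℝ) * a) := by
  have hr : 1 < (2 : ℝ) ^ a := Real.one_lt_rpow (by norm_num) ha
  have h1 := tendsto_pow_const_div_const_pow_of_one_lt 2 hr
  obtain ⟨i0, hi0⟩ := Filter.eventually_atTop.1 (h1.eventually (gt_mem_nhds (by norm_num : (0 : ℝ) < 1 / 64)))
  refine ⟨i0, fun i hi => ?_⟩
  have h2 := hi0 i hi
  have h3 : (0 : ℝ) < ((2 : ℝ) ^ a) ^ i := by positivity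
  rw [div_lt_iff₀ h3] at h2
  have h4 : ((2 : ℝ) ^ a) ^ i = (2 : ℝ) ^ ((i : ℝ) * a) := by
    rw [← Real.rpow_natCast, ← Real.rpow_mul (by norm_num), mul_comm]
  rw [← h4]
  linarith

theorem preims {δ : ℝ} (hδ1 : δ ≤ 1) (h : WB δ) {ε : ℝ} (hε : 0 < ε) (hε1 : ε ≤ 1) :
    ∃ i0 : ℕ, ∀ i : ℕ, i0 ≤ i → (((Ioc (2 ^ i) (2 ^ (i + 1))).filter fun e => Even e ∧
      ((Pr (e + 1)).card : ℝ) < 2 * ((e + 1 : ℕ) : ℝ) ^ (1 - ε)).card : ℝ) ≤ 16 * (2 : ℝ) ^ ((i : ℝ) * (1 - δ)) := by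
  obtain ⟨X0, hX0⟩ := h (ε / 2) (by positivity)
  obtain ⟨i1, hi1⟩ := ev_sq (ε / 2) (by positivity)
  refine ⟨i1 + X0 + 20, fun i hi => ?_⟩
  obtain ⟨t, rfl⟩ : ∃ t, i = t + 4 := ⟨i - 4, by omega⟩
  have hX : X0 ≤ 2 ^ (t + 3) := by
    have : t + 3 < 2 ^ (t + 3) := Nat.lt_two_pow_self
    omega
  have e8 : 2 ^ (t + 3) / 8 = 2 ^ t := by
    rw [pow_add]
    omega
  have e4 : 2 ^ (t + 4) = 16 * 2 ^ t := by rw [pow_add]; ring
  have e5 : 2 ^ (t + 4 + 1) = 32 * 2 ^ t := by rw [pow_add, pow_add]; ring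
  have e3 : 2 ^ (t + 3) = 4 * (2 * 2 ^ t) := by rw [pow_add]; ring
  have ht : 0 < 2 ^ t := Nat.two_pow_pos t
  have hi0 : (16 : ℝ) ≤ ((t + 4 : ℕ) : ℝ) := by exact_mod_cast (by omega : 16 ≤ t + 4)
  -- one window
  have hwin : ∀ l ∈ range 16, (((Ioc (2 ^ (t + 4) + l * 2 ^ t) (2 ^ (t + 4) + l * 2 ^ t + 2 ^ (t + 3) / 8)).filter
      (fun m => Even m ∧ ∑ a ∈ Ioc (2 ^ (t + 3) / 4) (2 ^ (t + 3) / 2), thn a * thn (m - a)
        < ((2 ^ (t + 3) : ℕ) : ℝ) ^ (1 - ε / 2))).card : ℝ) ≤ (2 : ℝ) ^ (((t + 4 : ℕ) : ℝ) * (1 - δ)) := by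
    intro l hl
    rw [mem_range] at hl
    have hM : l * 2 ^ t ≤ 15 * 2 ^ t := Nat.mul_le_mul_right _ (by omega)
    refine (hX0 (2 ^ (t + 3)) (2 ^ (t + 4) + l * 2 ^ t) hX (by omega) ?_).trans ?_
    · have h1 : ((2 ^ (t + 4) + l * 2 ^ t : ℕ) : ℝ) ≤ 4 * ((2 ^ (t + 3) : ℕ) : ℝ) := by
        have : 2 ^ (t + 4) + l * 2 ^ t ≤ 4 * 2 ^ (t + 3) := by omega
        exact_mod_cast this
      refine h1.trans ?_
      rw [mul_comm]
      apply mul_le_mul_of_nonneg_left _ (Nat.cast_nonneg _)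
      have h2 : (2 : ℝ) ≤ Real.log ((2 ^ (t + 3) : ℕ) : ℝ) := by
        push_cast
        rw [Real.log_pow]
        have h3 : (1 : ℝ) / 2 ≤ Real.log 2 := by linarith [Real.log_two_gt_d9]
        have h4 : (16 : ℝ) ≤ ((t + 3 : ℕ) : ℝ) + 1 := by
          have : ((t + 4 : ℕ) : ℝ) = ((t + 3 : ℕ) : ℝ) + 1 := by push_cast; ring
          linarith
        nlinarith
      nlinarith
    · have h5 : (((2 ^ (t + 3) : ℕ) : ℝ)) ≤ (2 : ℝ) ^ ((t + 4 : ℕ) : ℝ) := by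
        rw [Real.rpow_natCast]
        exact_mod_cast Nat.pow_le_pow_right (by norm_num) (by omega)
      rw [Real.rpow_mul (by norm_num)]
      exact Real.rpow_le_rpow (Nat.cast_nonneg _) h5 (by linarith)
  -- inclusion
  have hsub : ((Ioc (2 ^ (t + 4)) (2 ^ (t + 4 + 1))).filter fun e => Even e ∧
      ((Pr (e + 1)).card : ℝ) < 2 * ((e + 1 : ℕ) : ℝ) ^ (1 - ε)) ⊆
      (range 16).biUnion fun l => (Ioc (2 ^ (t + 4) + l * 2 ^ t) (2 ^ (t + 4) + l * 2 ^ t + 2 ^ (t + 3) / 8)).filter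
      (fun m => Even m ∧ ∑ a ∈ Ioc (2 ^ (t + 3) / 4) (2 ^ (t + 3) / 2), thn a * thn (m - a)
        < ((2 ^ (t + 3) : ℕ) : ℝ) ^ (1 - ε / 2)) := by
    intro e he
    rw [mem_filter, mem_Ioc] at he
    obtain ⟨⟨f1, f2⟩, f3, f4⟩ := he
    rw [mem_biUnion]
    refine ⟨(e - 1 - 2 ^ (t + 4)) / 2 ^ t, ?_, ?_⟩
    · rw [mem_range, Nat.div_lt_iff_lt_mul ht]
      omega
    · rw [mem_filter, mem_Ioc, e8]
      have g1 := Nat.div_mul_le_self (e - 1 - 2 ^ (t + 4)) (2 ^ t)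
      have g2 := Nat.lt_div_mul_add (a := e - 1 - 2 ^ (t + 4)) ht
      refine ⟨⟨by omega, by omega⟩, f3, ?_⟩
      by_contra hcon
      push Not at hcon
      have g3 := PQ_card (2 ^ (t + 3)) e (t + 4) (by
        have : 2 ^ (t + 4 + 1) ≤ 2 ^ (t + 4 + 4) := Nat.pow_le_pow_right (by norm_num) (by omega)
        omega) (by omega)
      have g4 := PQ_le (2 * 2 ^ t) e (by omega) (by omega) (by omega)
      rw [← e3] at g4
      have g5 : ((PQ (2 ^ (t + 3)) e).card : ℝ) ≤ (Pr (e + 1)).card := by exact_mod_cast g4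
      -- sizes
      have g6 : ((2 ^ (t + 3) : ℕ) : ℝ) ^ (1 - ε / 2) ≤ ((Pr (e + 1)).card : ℝ) * (((t + 4 : ℕ) : ℝ) + 4) ^ 2 := by
        refine hcon.trans (g3.trans ?_)
        apply mul_le_mul_of_nonneg_right g5 (by positivity)
      have g7 : (((t + 4 : ℕ) : ℝ) + 4) ^ 2 ≤ 4 * ((t + 4 : ℕ) : ℝ) ^ 2 := by nlinarith
      have g8 := hi1 (t + 4) (by omega)
      have g9 : ((e + 1 : ℕ) : ℝ) ^ (1 - ε) ≤ (2 : ℝ) ^ ((((t + 4 : ℕ) : ℝ) + 2) * (1 - ε)) := by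
        rw [Real.rpow_mul (by norm_num)]
        apply Real.rpow_le_rpow (Nat.cast_nonneg _) _ (by linarith)
        have : (((t + 4 : ℕ) : ℝ) + 2) = ((t + 6 : ℕ) : ℝ) := by push_cast; ring
        rw [this, Real.rpow_natCast]
        have h6 : 2 ^ (t + 6) = 64 * 2 ^ t := by rw [pow_add]; ring
        have h7 : e + 1 ≤ 2 ^ (t + 6) := by omega
        exact_mod_cast h7
      have g10 : ((2 ^ (t + 3) : ℕ) : ℝ) ^ (1 - ε / 2) = (2 : ℝ) ^ ((((t + 4 : ℕ) : ℝ) - 1) * (1 - ε / 2)) := by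
        rw [Real.rpow_mul (by norm_num)]
        congr 1
        have : (((t + 4 : ℕ) : ℝ) - 1) = ((t + 3 : ℕ) : ℝ) := by push_cast; ring
        rw [this, Real.rpow_natCast]
        push_cast
        rfl
      -- `2 * 4 i ^ 2 * 2 ^ ((i + 2) (1 - ε)) ≤ 2 ^ ((i - 1) (1 - ε / 2))`
      obtain ⟨I, hI⟩ : ∃ I : ℝ, I = ((t + 4 : ℕ) : ℝ) := ⟨_, rfl⟩
      rw [← hI] at g6 g7 g8 g9 g10 hi0
      have g11 : (2 : ℝ) ^ ((I + 2) * (1 - ε)) * (2 : ℝ) ^ (I * (ε / 2)) ≤ 8 * (2 : ℝ) ^ ((I - 1) * (1 - ε / 2)) := by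
        have : (8 : ℝ) = (2 : ℝ) ^ (3 : ℝ) := by
          have : (3 : ℝ) = ((3 : ℕ) : ℝ) := by norm_num
          rw [this, Real.rpow_natCast]
          norm_num
        rw [this, ← Real.rpow_add (by norm_num), ← Real.rpow_add (by norm_num)]
        apply Real.rpow_le_rpow_of_exponent_le (by norm_num)
        nlinarith
      have g12 : (0 : ℝ) < (2 : ℝ) ^ ((I + 2) * (1 - ε)) := by positivity
      have g13 : 8 * ((I ^ 2 * 4) * (2 * (2 : ℝ) ^ ((I + 2) * (1 - ε)))) ≤ 8 * (2 : ℝ) ^ ((I - 1) * (1 - ε / 2)) := by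
        refine le_trans ?_ g11
        calc 8 * ((I ^ 2 * 4) * (2 * (2 : ℝ) ^ ((I + 2) * (1 - ε)))) = (2 : ℝ) ^ ((I + 2) * (1 - ε)) * (64 * I ^ 2) := by ring
          _ ≤ _ := mul_le_mul_of_nonneg_left g8 g12.le
      rw [g10] at g6
      have g14 : (0 : ℝ) < I ^ 2 * 4 := by positivity
      have g15 : ((Pr (e + 1)).card : ℝ) * (I + 4) ^ 2 < (I ^ 2 * 4) * (2 * (2 : ℝ) ^ ((I + 2) * (1 - ε))) := by
        calc ((Pr (e + 1)).card : ℝ) * (I + 4) ^ 2 ≤ ((Pr (e + 1)).card : ℝ) * (4 * I ^ 2) :=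
              mul_le_mul_of_nonneg_left g7 (Nat.cast_nonneg _)
          _ = (I ^ 2 * 4) * ((Pr (e + 1)).card : ℝ) := by ring
          _ < (I ^ 2 * 4) * (2 * (2 : ℝ) ^ ((I + 2) * (1 - ε))) := by
            apply mul_lt_mul_of_pos_left _ g14
            exact lt_of_lt_of_le f4 (by linarith)
      linarith
  have hcard : (((Ioc (2 ^ (t + 4)) (2 ^ (t + 4 + 1))).filter fun e => Even e ∧
      ((Pr (e + 1)).card : ℝ) < 2 * ((e + 1 : ℕ) : ℝ) ^ (1 - ε)).card : ℝ) ≤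
      ∑ l ∈ range 16, (((Ioc (2 ^ (t + 4) + l * 2 ^ t) (2 ^ (t + 4) + l * 2 ^ t + 2 ^ (t + 3) / 8)).filter
      (fun m => Even m ∧ ∑ a ∈ Ioc (2 ^ (t + 3) / 4) (2 ^ (t + 3) / 2), thn a * thn (m - a)
        < ((2 ^ (t + 3) : ℕ) : ℝ) ^ (1 - ε / 2))).card : ℝ) := by
    exact_mod_cast (card_le_card hsub).trans card_biUnion_le
  refine hcard.trans ((sum_le_sum hwin).trans ?_)
  rw [sum_const, card_range, nsmul_eq_mul]
  norm_num

end Pool.Agent.Work.MP_113634_past
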