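import Pool.Agent.Work.MP_113634_past.PastA

/-!
# Pasts of typical odd numbers: the exceptional set (helper2)
-/

set_option autoImplicit false

namespace Pool.Agent.Work.MP_113634_past

open Finset
open Pool.Agent.Work.MP_113634_nt (sstar usum usum_mul usum_prime)
open scoped Classical

/-- the even `e` in a dyadic block with `e + 1` not in `T` -/
noncomputable def Bk (η : ℝ) (j i : ℕ) : Finset ℕ :=
  (Ioc (2 ^ i) (2 ^ (i + 1))).filter fun e => Even e ∧ ¬ T η j (e + 1)

theorem Bk_card_le (η : ℝ) (j i : ℕ) : (Bk η j i).card ≤ 2 ^ i := by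
  refine (card_filter_le _ _).trans ?_
  rw [Nat.card_Ioc, pow_succ]
  omega

theorem blocks {δ : ℝ} (hδ1 : δ ≤ 1) (h : WB δ) {η : ℝ} (hη : 0 < η) (hηδ : η < δ) :
    ∃ K : ℝ, 0 < K ∧ ∀ j i : ℕ, ((Bk η j i).card : ℝ) ≤ K * (2 : ℝ) ^ ((i : ℝ) * (1 - δ)) := by
  obtain ⟨i0, hi0⟩ := preims hδ1 h hη (by linarith)
  obtain ⟨i1, hi1⟩ := ev_sq (δ - η) (by linarith)
  obtain ⟨N, hN⟩ : ∃ N, N = i0 + i1 + 10 := ⟨_, rfl⟩
  refine ⟨32 * 2 ^ N, by positivity, ?_⟩
  have hK : (32 : ℝ) ≤ 32 * 2 ^ N := by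
    have : (1 : ℝ) ≤ 2 ^ N := one_le_pow₀ (by norm_num)
    linarith
  intro j
  induction j with
  | zero =>
    intro i
    have : Bk η 0 i = ∅ := by
      rw [Bk, filter_eq_empty_iff]
      rintro e - ⟨h1, h2⟩
      exact h2 h1.add_one
    rw [this, card_empty, Nat.cast_zero]
    positivity
  | succ j ih =>
    intro i
    have hpos : (1 : ℝ) ≤ (2 : ℝ) ^ ((i : ℝ) * (1 - δ)) := by
      apply Real.one_le_rpow (by norm_num)
      exact mul_nonneg (Nat.cast_nonneg _) (by linarith)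
    rcases Nat.lt_or_ge i N with hlt | hge
    · have h1 : ((Bk η (j + 1) i).card : ℝ) ≤ 2 ^ N := by
        have h2 := (Bk_card_le η (j + 1) i).trans (Nat.pow_le_pow_right (by norm_num) hlt.le)
        exact_mod_cast h2
      have h3 : (0 : ℝ) < 2 ^ N := by positivity
      nlinarith
    · -- large `i`
      obtain ⟨A, hA⟩ : ∃ A, A = (Ioc (2 ^ i) (2 ^ (i + 1))).filter fun e => Even e ∧
        ((Pr (e + 1)).card : ℝ) < 2 * ((e + 1 : ℕ) : ℝ) ^ (1 - η) := ⟨_, rfl⟩
      obtain ⟨B, hB⟩ : ∃ B, B = (Bk η (j + 1) i).filter fun e =>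
        2 * ((e + 1 : ℕ) : ℝ) ^ (1 - η) ≤ ((Pr (e + 1)).card : ℝ) := ⟨_, rfl⟩
      have hA1 : (A.card : ℝ) ≤ 16 * (2 : ℝ) ^ ((i : ℝ) * (1 - δ)) := by
        rw [hA]
        exact hi0 i (by omega)
      have hsub : Bk η (j + 1) i ⊆ A ∪ B := by
        intro e he
        rw [mem_union]
        have he' := he
        rw [Bk, mem_filter] at he'
        rcases lt_or_ge ((Pr (e + 1)).card : ℝ) (2 * ((e + 1 : ℕ) : ℝ) ^ (1 - η)) with h1 | h1
        · left
          rw [hA, mem_filter]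
          exact ⟨he'.1, he'.2.1, h1⟩
        · right
          rw [hB, mem_filter]
          exact ⟨he, h1⟩
      -- many bad preimages
      obtain ⟨Q, hQ⟩ : ∃ Q : ℕ → Finset ℕ, Q = fun e => (Pr (e + 1)).filter fun n => ¬ T η j n := ⟨_, rfl⟩
      have hBe : ∀ e ∈ B, (2 : ℝ) ^ ((i : ℝ) * (1 - η)) ≤ ((Q e).card : ℝ) := by
        intro e he
        rw [hB, mem_filter, Bk, mem_filter, mem_Ioc] at he
        obtain ⟨⟨⟨h1, h2⟩, h3, h4⟩, h5⟩ := he
        have h6 : (((Pr (e + 1)).filter fun n => T η j n).card : ℝ) < ((e + 1 : ℕ) : ℝ) ^ (1 - η) := by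
          by_contra hcon
          push Not at hcon
          exact h4 ⟨h3.add_one, hcon⟩
        have h7 := card_filter_add_card_filter_not (s := Pr (e + 1)) (fun n => T η j n)
        have h8 : (((Pr (e + 1)).filter fun n => T η j n).card : ℝ) + ((Q e).card : ℝ) = (Pr (e + 1)).card := by
          rw [hQ]
          exact_mod_cast h7
        have h9 : (2 : ℝ) ^ ((i : ℝ) * (1 - η)) ≤ ((e + 1 : ℕ) : ℝ) ^ (1 - η) := by
          rw [Real.rpow_mul (by norm_num), Real.rpow_natCast]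
          apply Real.rpow_le_rpow (by positivity) _ (by linarith)
          have : 2 ^ i ≤ e + 1 := by omega
          exact_mod_cast this
        linarith
      -- the target
      obtain ⟨U, hU⟩ : ∃ U, U = (Ico (2 * i - 7) (2 * i + 4)).biUnion fun i' => Bk η j i' := ⟨_, rfl⟩
      have hinj : (B.sigma Q).card ≤ U.card := by
        apply card_le_card_of_injOn (fun x => x.2 - 1)
        · rintro ⟨e, n⟩ hx
          rw [mem_coe, mem_sigma] at hx
          obtain ⟨he, hn⟩ := hx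
          simp only at he hn
          rw [hB, mem_filter, Bk, mem_filter, mem_Ioc] at he
          obtain ⟨⟨⟨h1, h2⟩, h3, h4⟩, h5⟩ := he
          rw [hQ] at hn
          simp only [mem_filter, Pr, mem_Icc] at hn
          obtain ⟨⟨⟨n1, n2⟩, n3, n4, n5⟩, n6⟩ := hn
          simp only
          have c1 : 2 ^ (2 * i) = 128 * 2 ^ (2 * i - 7) := by
            have : (128 : ℕ) = 2 ^ 7 := by norm_num
            rw [this, ← pow_add]
            congr 1
            omega
          have c2 : 2 ^ 2 ≤ 2 ^ (2 * i - 7) := Nat.pow_le_pow_right (by norm_num) (by omega)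
          have c3 : 2 ^ (2 * i) = (2 ^ i) ^ 2 := by rw [← pow_mul, mul_comm]
          have c4 : (2 ^ i) ^ 2 ≤ (e + 1) ^ 2 := Nat.pow_le_pow_left (by omega) 2
          have c5 : 2 ^ (2 * i - 7) < n - 1 := by omega
          have c6 : n - 1 ≤ 2 ^ (2 * i + 4) := by
            have d1 : (e + 1) ^ 2 ≤ (2 ^ (i + 2)) ^ 2 := by
              apply Nat.pow_le_pow_left
              have : 2 ^ (i + 2) = 2 * 2 ^ (i + 1) := by rw [pow_succ]; ring
              have : 1 ≤ 2 ^ (i + 1) := Nat.one_le_two_pow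
              omega
            have d2 : (2 ^ (i + 2)) ^ 2 = 2 ^ (2 * i + 4) := by
              rw [← pow_mul]
              congr 1
              ring
            omega
          have c7 : 1 < n - 1 := by omega
          rw [mem_coe, hU, mem_biUnion]
          have d3 : 2 ^ Nat.log 2 (n - 1 - 1) ≤ n - 1 - 1 := Nat.pow_log_le_self 2 (by omega)
          have d4 : n - 1 - 1 < 2 ^ (Nat.log 2 (n - 1 - 1) + 1) := Nat.lt_pow_succ_log_self (by norm_num) _
          refine ⟨Nat.log 2 (n - 1 - 1), ?_, ?_⟩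
          · rw [mem_Ico]
            constructor
            · by_contra hcon
              push Not at hcon
              have : 2 ^ (Nat.log 2 (n - 1 - 1) + 1) ≤ 2 ^ (2 * i - 7) :=
                Nat.pow_le_pow_right (by norm_num) hcon
              omega
            · by_contra hcon
              push Not at hcon
              have : 2 ^ (2 * i + 4) ≤ 2 ^ (Nat.log 2 (n - 1 - 1)) := Nat.pow_le_pow_right (by norm_num) hcon
              omega
          · rw [Bk, mem_filter, mem_Ioc]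
            refine ⟨⟨by omega, by omega⟩, ?_, ?_⟩
            · exact Nat.Odd.sub_odd n3 odd_one
            · rw [Nat.sub_add_cancel n1]
              exact n6
        · rintro ⟨e, n⟩ hx ⟨e', n'⟩ hx' hxx
          rw [mem_coe, mem_sigma] at hx hx'
          have a1 := hx.2
          have a2 := hx'.2
          rw [hQ] at a1 a2
          simp only [mem_filter, Pr, mem_Icc] at a1 a2
          simp only at hxx
          have a3 : n = n' := by omega
          subst a3
          have a4 : e + 1 = e' + 1 := by rw [← a1.1.2.2.1, ← a2.1.2.2.1]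
          have a5 : e = e' := by omega
          subst a5
          rfl
      have hUc : (U.card : ℝ) ≤ 11 * ((32 * 2 ^ N) * (2 : ℝ) ^ (((2 : ℝ) * i + 4) * (1 - δ))) := by
        have h1 : (U.card : ℝ) ≤ ∑ i' ∈ Ico (2 * i - 7) (2 * i + 4), ((Bk η j i').card : ℝ) := by
          rw [hU]
          exact_mod_cast card_biUnion_le
        refine h1.trans ?_
        have h2 : ∀ i' ∈ Ico (2 * i - 7) (2 * i + 4), ((Bk η j i').card : ℝ)
            ≤ (32 * 2 ^ N) * (2 : ℝ) ^ (((2 : ℝ) * i + 4) * (1 - δ)) := by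
          intro i' hi'
          rw [mem_Ico] at hi'
          refine (ih i').trans ?_
          apply mul_le_mul_of_nonneg_left _ (by positivity)
          apply Real.rpow_le_rpow_of_exponent_le (by norm_num)
          apply mul_le_mul_of_nonneg_right _ (by linarith)
          have : (i' : ℝ) ≤ ((2 * i + 4 : ℕ) : ℝ) := by exact_mod_cast hi'.2.le
          push_cast at this
          exact this
        refine (sum_le_sum h2).trans (le_of_eq ?_)
        rw [sum_const, Nat.card_Ico, nsmul_eq_mul]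
        have : 2 * i + 4 - (2 * i - 7) = 11 := by omega
        rw [this]
        norm_num
      have hsig : (B.card : ℝ) * (2 : ℝ) ^ ((i : ℝ) * (1 - η)) ≤ U.card := by
        calc (B.card : ℝ) * (2 : ℝ) ^ ((i : ℝ) * (1 - η)) = ∑ _e ∈ B, (2 : ℝ) ^ ((i : ℝ) * (1 - η)) := by
              rw [sum_const, nsmul_eq_mul]
          _ ≤ ∑ e ∈ B, ((Q e).card : ℝ) := sum_le_sum hBe
          _ = ((B.sigma Q).card : ℝ) := by rw [card_sigma]; push_cast; rfl
          _ ≤ U.card := by exact_mod_cast hinj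
      -- conclusion
      have hBc : (B.card : ℝ) ≤ 16 * 2 ^ N * (2 : ℝ) ^ ((i : ℝ) * (1 - δ)) := by
        have h1 := hsig.trans hUc
        have h2 : (2 : ℝ) ^ (((2 : ℝ) * i + 4) * (1 - δ)) ≤ 16 * ((2 : ℝ) ^ ((i : ℝ) * (1 - δ)) * (2 : ℝ) ^ ((i : ℝ) * (1 - δ))) := by
          have : (16 : ℝ) = (2 : ℝ) ^ (4 : ℝ) := by
            have : (4 : ℝ) = ((4 : ℕ) : ℝ) := by norm_num
            rw [this, Real.rpow_natCast]
            norm_num
          rw [this, ← Real.rpow_add (by norm_num), ← Real.rpow_add (by norm_num)]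
          apply Real.rpow_le_rpow_of_exponent_le (by norm_num)
          nlinarith
        have h3 : (2 : ℝ) ^ ((i : ℝ) * (1 - η)) = (2 : ℝ) ^ ((i : ℝ) * (1 - δ)) * (2 : ℝ) ^ ((i : ℝ) * (δ - η)) := by
          rw [← Real.rpow_add (by norm_num)]
          congr 1
          ring
        have h4 := hi1 i (by omega)
        have h5 : (10 : ℝ) ≤ i := by exact_mod_cast (by omega : 10 ≤ i)
        have h6 : (6400 : ℝ) ≤ (2 : ℝ) ^ ((i : ℝ) * (δ - η)) := by nlinarith
        obtain ⟨a, ha⟩ : ∃ a, a = (2 : ℝ) ^ ((i : ℝ) * (1 - δ)) := ⟨_, rfl⟩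
        obtain ⟨b, hb⟩ : ∃ b, b = (2 : ℝ) ^ ((i : ℝ) * (δ - η)) := ⟨_, rfl⟩
        rw [← ha] at h2 h3 hpos ⊢
        rw [← hb] at h3 h6
        rw [h3] at h1
        have ha0 : 0 < a := by linarith
        have h7 : (B.card : ℝ) * (a * b) ≤ 11 * ((32 * 2 ^ N) * (16 * (a * a))) := by
          refine h1.trans ?_
          have : (0 : ℝ) < 32 * 2 ^ N := by positivity
          gcongr
        have h8 : a * ((B.card : ℝ) * b) ≤ a * (5632 * 2 ^ N * a) := by
          calc a * ((B.card : ℝ) * b) = (B.card : ℝ) * (a * b) := by ring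
            _ ≤ _ := h7
            _ = _ := by ring
        have h9 := le_of_mul_le_mul_left h8 ha0
        have h10 : (B.card : ℝ) * 6400 ≤ (B.card : ℝ) * b := mul_le_mul_of_nonneg_left h6 (Nat.cast_nonneg _)
        have h11 : (0 : ℝ) < 2 ^ N * a := by positivity
        nlinarith
      have hfin : ((Bk η (j + 1) i).card : ℝ) ≤ A.card + B.card := by
        exact_mod_cast (card_le_card hsub).trans (card_union_le _ _)
      have h12 : (1 : ℝ) ≤ 2 ^ N := one_le_pow₀ (by norm_num)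
      nlinarith

/-- the exceptional set is small -/
theorem exceptions {δ : ℝ} (hδ : 0 < δ) (hδ1 : δ ≤ 1) (h : WB δ) {η : ℝ} (hη : 0 < η) (hηδ : η < δ) :
    ∃ C : ℝ, 0 < C ∧ ∀ x : ℕ, 1 ≤ x →
      (((Icc 1 x).filter fun m => Odd m ∧ ∃ j, ¬ T η j m).card : ℝ) ≤ C * (x : ℝ) ^ (1 - δ / 2) := by
  obtain ⟨K, hK, hb⟩ := blocks hδ1 h hη hηδ
  refine ⟨1 + K * (4 / δ + 1), by positivity, fun x hx => ?_⟩
  obtain ⟨J, hJ⟩ : ∃ J : ℕ, ∀ m ∈ Icc 1 x, (∃ j, ¬ T η j m) → ¬ T η J m := by
    obtain ⟨f, hf⟩ : ∃ f : ℕ → ℕ, ∀ m, (∃ j, ¬ T η j m) → ¬ T η (f m) m := by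
      refine ⟨fun m => if h : ∃ j, ¬ T η j m then h.choose else 0, fun m hm => ?_⟩
      simp only
      rw [dif_pos hm]
      exact hm.choose_spec
    refine ⟨(Icc 1 x).sup f, fun m hm hj hT => hf m hj ?_⟩
    exact T_mono (le_sup (f := f) hm) hT
  have hx1 : (1 : ℝ) ≤ x := by exact_mod_cast hx
  obtain ⟨u, hu⟩ : ∃ u, u = Nat.log 2 x := ⟨_, rfl⟩
  have hu1 : 2 ^ u ≤ x := by rw [hu]; exact Nat.pow_log_le_self 2 (by omega)
  have hsub : ((Icc 1 x).filter fun m => Odd m ∧ ∃ j, ¬ T η j m) ⊆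
      {1} ∪ (range (u + 1)).biUnion fun i => (Bk η J i).image (· + 1) := by
    intro m hm
    rw [mem_filter] at hm
    obtain ⟨h1, h2, h3⟩ := hm
    have h4 := hJ m h1 h3
    rw [mem_Icc] at h1
    rw [mem_union, mem_singleton]
    rcases Nat.lt_or_ge m 3 with h5 | h5
    · left
      obtain ⟨t, ht⟩ := h2
      omega
    · right
      rw [mem_biUnion]
      have d3 : 2 ^ Nat.log 2 (m - 1 - 1) ≤ m - 1 - 1 := Nat.pow_log_le_self 2 (by omega)
      have d4 : m - 1 - 1 < 2 ^ (Nat.log 2 (m - 1 - 1) + 1) := Nat.lt_pow_succ_log_self (by norm_num) _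
      refine ⟨Nat.log 2 (m - 1 - 1), ?_, ?_⟩
      · rw [mem_range, hu]
        have := Nat.log_mono_right (b := 2) (by omega : m - 1 - 1 ≤ x)
        omega
      · rw [mem_image]
        refine ⟨m - 1, ?_, by omega⟩
        rw [Bk, mem_filter, mem_Ioc]
        refine ⟨⟨by omega, by omega⟩, Nat.Odd.sub_odd h2 odd_one, ?_⟩
        rw [Nat.sub_add_cancel (by omega)]
        exact h4
  have h1 : (((Icc 1 x).filter fun m => Odd m ∧ ∃ j, ¬ T η j m).card : ℝ) ≤
      1 + ∑ i ∈ range (u + 1), ((Bk η J i).card : ℝ) := by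
    have h2 := (card_le_card hsub).trans (card_union_le _ _)
    have h3 : ((range (u + 1)).biUnion fun i => (Bk η J i).image (· + 1)).card ≤
        ∑ i ∈ range (u + 1), (Bk η J i).card :=
      card_biUnion_le.trans (sum_le_sum fun i _ => card_image_le)
    rw [card_singleton] at h2
    exact_mod_cast h2.trans (Nat.add_le_add_left h3 1)
  have h2 : ∀ i ∈ range (u + 1), ((Bk η J i).card : ℝ) ≤ K * (x : ℝ) ^ (1 - δ) := by
    intro i hi
    rw [mem_range] at hi
    refine (hb J i).trans ?_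
    apply mul_le_mul_of_nonneg_left _ hK.le
    rw [Real.rpow_mul (by norm_num), Real.rpow_natCast]
    apply Real.rpow_le_rpow (by positivity) _ (by linarith)
    have : 2 ^ i ≤ x := (Nat.pow_le_pow_right (by norm_num) (by omega)).trans hu1
    exact_mod_cast this
  have h3 : ∑ i ∈ range (u + 1), ((Bk η J i).card : ℝ) ≤ ((u : ℝ) + 1) * (K * (x : ℝ) ^ (1 - δ)) := by
    refine (sum_le_sum h2).trans (le_of_eq ?_)
    rw [sum_const, card_range, nsmul_eq_mul]
    push_cast
    ring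
  have h4 : (u : ℝ) + 1 ≤ (4 / δ + 1) * (x : ℝ) ^ (δ / 2) := by
    have e1 : (2 : ℝ) ^ u ≤ x := by exact_mod_cast hu1
    have e2 := Real.log_le_log (by positivity) e1
    rw [Real.log_pow] at e2
    have e3 : (1 : ℝ) / 2 ≤ Real.log 2 := by linarith [Real.log_two_gt_d9]
    have e4 : (0 : ℝ) ≤ (u : ℝ) := Nat.cast_nonneg _
    have e5 := Real.log_le_rpow_div (x := (x : ℝ)) (by linarith) (ε := δ / 2) (by positivity)
    have e6 : (1 : ℝ) ≤ (x : ℝ) ^ (δ / 2) := Real.one_le_rpow hx1 (by positivity)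
    have e7 : (x : ℝ) ^ (δ / 2) / (δ / 2) = 2 / δ * (x : ℝ) ^ (δ / 2) := by
      field_simp
    rw [e7] at e5
    have e8 : (u : ℝ) ≤ 2 * Real.log x := by nlinarith
    have e9 : 4 / δ = 2 * (2 / δ) := by ring
    rw [e9]
    nlinarith
  have h5 : (x : ℝ) ^ (δ / 2) * (x : ℝ) ^ (1 - δ) = (x : ℝ) ^ (1 - δ / 2) := by
    rw [← Real.rpow_add (by linarith)]
    congr 1
    ring
  have h6 : (1 : ℝ) ≤ (x : ℝ) ^ (1 - δ / 2) := Real.one_le_rpow hx1 (by linarith)
  have h7 : (0 : ℝ) < (x : ℝ) ^ (1 - δ) := by positivity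
  calc (((Icc 1 x).filter fun m => Odd m ∧ ∃ j, ¬ T η j m).card : ℝ)
      ≤ 1 + ((u : ℝ) + 1) * (K * (x : ℝ) ^ (1 - δ)) := h1.trans (by linarith)
    _ ≤ 1 + ((4 / δ + 1) * (x : ℝ) ^ (δ / 2)) * (K * (x : ℝ) ^ (1 - δ)) := by gcongr
    _ = 1 + K * (4 / δ + 1) * ((x : ℝ) ^ (δ / 2) * (x : ℝ) ^ (1 - δ)) := by ring
    _ = 1 + K * (4 / δ + 1) * (x : ℝ) ^ (1 - δ / 2) := by rw [h5]
    _ ≤ (1 + K * (4 / δ + 1)) * (x : ℝ) ^ (1 - δ / 2) := by linarith

end Pool.Agent.Work.MP_113634_past
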