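import Pool.Agent.Work.MP_113634_past.PastB

/-!
# Pasts of typical odd numbers: the trees (helper2)
-/

set_option autoImplicit false

namespace Pool.Agent.Work.MP_113634_past

open Finset
open Pool.Agent.Work.MP_113634_nt (sstar usum usum_mul usum_prime)
open scoped Classical

/-- the `n ≤ m ^ (2 ^ k)` with `k`-th iterate `m` -/
noncomputable def An (k m : ℕ) : Finset ℕ := (Icc 1 (m ^ 2 ^ k)).filter fun n => sstar^[k] n = m

theorem An_card {η : ℝ} (hη1 : η ≤ 1) : ∀ k m : ℕ, 1 ≤ m → T η k m →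
    ((m : ℝ) / 100) ^ ((1 - η) * (2 ^ k - 1)) ≤ ((An k m).card : ℝ) := by
  intro k
  induction k with
  | zero =>
    intro m hm _
    have h1 : m ∈ An 0 m := by
      rw [An, mem_filter, mem_Icc]
      refine ⟨⟨hm, by simp⟩, rfl⟩
    have h2 : 1 ≤ (An 0 m).card := card_pos.2 ⟨m, h1⟩
    rw [pow_zero, sub_self, mul_zero, Real.rpow_zero]
    exact_mod_cast h2
  | succ k ih =>
    intro m hm hT
    obtain ⟨hodd, hT⟩ := hT
    obtain ⟨S, hS⟩ : ∃ S, S = (Pr m).filter fun n => T η k n := ⟨_, rfl⟩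
    rw [← hS] at hT
    have hm0 : (0 : ℝ) < m := by exact_mod_cast hm
    have hmem : ∀ n ∈ S, 1 ≤ n ∧ n ≤ m ^ 2 ∧ sstar n = m ∧ m ^ 2 ≤ 100 * n ∧ T η k n := by
      intro n hn
      rw [hS, mem_filter, Pr, mem_filter, mem_Icc] at hn
      exact ⟨hn.1.1.1, hn.1.1.2, hn.1.2.2.1, hn.1.2.2.2, hn.2⟩
    have hinj : (S.sigma (An k)).card ≤ (An (k + 1) m).card := by
      apply card_le_card_of_injOn (fun x => x.2)
      · rintro ⟨n, a⟩ hx
        rw [mem_coe, mem_sigma] at hx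
        obtain ⟨h1, h2⟩ := hx
        simp only at h1 h2
        obtain ⟨a1, a2, a3, a4, a5⟩ := hmem n h1
        rw [An, mem_filter, mem_Icc] at h2
        rw [mem_coe, An, mem_filter, mem_Icc]
        refine ⟨⟨h2.1.1, ?_⟩, ?_⟩
        · refine h2.1.2.trans ?_
          have : m ^ 2 ^ (k + 1) = (m ^ 2) ^ 2 ^ k := by rw [← pow_mul, pow_succ, mul_comm]
          rw [this]
          exact Nat.pow_le_pow_left a2 _
        · rw [Function.iterate_succ_apply', h2.2, a3]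
      · rintro ⟨n, a⟩ hx ⟨n', a'⟩ hx' hxx
        rw [mem_coe, mem_sigma] at hx hx'
        have h1 := hx.2
        have h2 := hx'.2
        simp only [An, mem_filter] at h1 h2
        simp only at hxx
        subst hxx
        have : n = n' := by rw [← h1.2, ← h2.2]
        subst this
        rfl
    have hone : ∀ n ∈ S, (((m : ℝ) / 100) ^ 2) ^ ((1 - η) * (2 ^ k - 1)) ≤ ((An k n).card : ℝ) := by
      intro n hn
      obtain ⟨a1, a2, a3, a4, a5⟩ := hmem n hn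
      refine le_trans ?_ (ih n a1 a5)
      apply Real.rpow_le_rpow (by positivity)
      · have : ((m ^ 2 : ℕ) : ℝ) ≤ ((100 * n : ℕ) : ℝ) := by exact_mod_cast a4
        push_cast at this
        rw [div_pow, div_le_div_iff₀ (by positivity) (by positivity)]
        linarith
      · apply mul_nonneg (by linarith)
        have : (1 : ℝ) ≤ 2 ^ k := one_le_pow₀ (by norm_num)
        linarith
    have h1 : (S.card : ℝ) * (((m : ℝ) / 100) ^ 2) ^ ((1 - η) * (2 ^ k - 1)) ≤ ((An (k + 1) m).card : ℝ) := by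
      calc (S.card : ℝ) * (((m : ℝ) / 100) ^ 2) ^ ((1 - η) * (2 ^ k - 1))
          = ∑ _n ∈ S, (((m : ℝ) / 100) ^ 2) ^ ((1 - η) * (2 ^ k - 1)) := by rw [sum_const, nsmul_eq_mul]
        _ ≤ ∑ n ∈ S, ((An k n).card : ℝ) := sum_le_sum hone
        _ = ((S.sigma (An k)).card : ℝ) := by rw [card_sigma]; push_cast; rfl
        _ ≤ _ := by exact_mod_cast hinj
    refine le_trans ?_ h1
    have h2 : ((m : ℝ) / 100) ^ (1 - η) ≤ S.card := by
      refine le_trans ?_ hT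
      apply Real.rpow_le_rpow (by positivity) _ (by linarith)
      rw [div_le_iff₀ (by norm_num)]
      linarith
    have h3 : ((m : ℝ) / 100) ^ ((1 - η) * (2 ^ (k + 1) - 1)) =
        ((m : ℝ) / 100) ^ (1 - η) * (((m : ℝ) / 100) ^ 2) ^ ((1 - η) * (2 ^ k - 1)) := by
      have h4 : (((m : ℝ) / 100) ^ 2) ^ ((1 - η) * (2 ^ k - 1)) = ((m : ℝ) / 100) ^ (2 * ((1 - η) * (2 ^ k - 1))) := by
        rw [Real.rpow_mul (by positivity) 2, Real.rpow_two]
      rw [h4, ← Real.rpow_add (by positivity)]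
      congr 1
      ring
    rw [h3]
    exact mul_le_mul_of_nonneg_right h2 (by positivity)

/-- the descent of the infinite chain -/
theorem chain_step {η : ℝ} {m : ℕ} (hm : 101 ≤ m) (hT : ∀ j, T η j m) :
    ∃ n, m < n ∧ sstar n = m ∧ ∀ j, T η j n := by
  by_contra hcon
  push Not at hcon
  have hm0 : (0 : ℝ) < m := by exact_mod_cast (by omega : 0 < m)
  have hbad : ∀ n ∈ Pr m, ∃ j, ¬ T η j n := by
    intro n hn
    rw [Pr, mem_filter, mem_Icc] at hn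
    obtain ⟨⟨a1, a2⟩, a3, a4, a5⟩ := hn
    apply hcon n _ a4
    by_contra h
    push Not at h
    have h1 : m ^ 2 ≤ 100 * m := a5.trans (Nat.mul_le_mul_left _ h)
    have h2 : m * m ≤ 100 * m := by rwa [sq] at h1
    have h3 := Nat.le_of_mul_le_mul_right h2 (by omega)
    omega
  obtain ⟨f, hf⟩ : ∃ f : ℕ → ℕ, ∀ n, (∃ j, ¬ T η j n) → ¬ T η (f n) n := by
    refine ⟨fun m => if h : ∃ j, ¬ T η j m then h.choose else 0, fun m hm => ?_⟩
    simp only
    rw [dif_pos hm]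
    exact hm.choose_spec
  have h1 := (hT ((Pr m).sup f + 1)).2
  have h2 : ((Pr m).filter fun n => T η ((Pr m).sup f) n) = ∅ := by
    rw [filter_eq_empty_iff]
    intro n hn hT
    exact hf n (hbad n hn) (T_mono (le_sup (f := f) hn) hT)
  rw [h2, card_empty, Nat.cast_zero] at h1
  have h3 : (0 : ℝ) < (m : ℝ) ^ (1 - η) := by positivity
  linarith

theorem chain {η : ℝ} {m : ℕ} (hm : 101 ≤ m) (hT : ∀ j, T η j m) :
    ∃ u : ℕ → ℕ, u 0 = m ∧ StrictMono u ∧ ∀ i, sstar (u (i + 1)) = u i := by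
  let D := {n : ℕ // 101 ≤ n ∧ ∀ j, T η j n}
  have hstep : ∀ d : D, ∃ d' : D, d.1 < d'.1 ∧ sstar d'.1 = d.1 := by
    rintro ⟨n, h1, h2⟩
    obtain ⟨n', h3, h4, h5⟩ := chain_step h1 h2
    exact ⟨⟨n', by omega, h5⟩, h3, h4⟩
  choose g hg1 hg2 using hstep
  let d0 : D := ⟨m, hm, hT⟩
  refine ⟨fun i => (g^[i] d0).1, rfl, strictMono_nat_of_lt_succ fun i => ?_, fun i => ?_⟩
  · simp only [Function.iterate_succ_apply']
    exact hg1 _
  · simp only [Function.iterate_succ_apply']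
    exact hg2 _

/-- the past of a typical odd number -/
theorem pasts_of {δ : ℝ} (hδ : 0 < δ) (hδ1 : δ ≤ 1) (h : WB δ) (η : ℝ) (hη : 0 < η) :
    ∃ C : ℝ, 0 < C ∧ ∀ x : ℕ, 1 ≤ x →
      (((Icc 1 x).filter fun m : ℕ => Odd m ∧ ¬ ((∀ k : ℕ, (m : ℝ) ^ ((1 - η) * (2 ^ k - 1)) ≤
          (((Icc 1 (m ^ 2 ^ k)).filter fun n => sstar^[k] n = m).card : ℝ)) ∧
        ∃ u : ℕ → ℕ, u 0 = m ∧ StrictMono u ∧ ∀ i, sstar (u (i + 1)) = u i)).card : ℝ)
        ≤ C * (x : ℝ) ^ (1 - δ / 2) := by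
  obtain ⟨ε, hε⟩ : ∃ ε, ε = min (η / 2) (δ / 2) := ⟨_, rfl⟩
  have hε0 : 0 < ε := by rw [hε]; exact lt_min (by positivity) (by positivity)
  have hε1 : ε ≤ η / 2 := by rw [hε]; exact min_le_left _ _
  have hε2 : ε ≤ δ / 2 := by rw [hε]; exact min_le_right _ _
  obtain ⟨C, hC, hx⟩ := exceptions hδ hδ1 h hε0 (by linarith)
  -- `100 ≤ m ^ ε` for `m ≥ N`
  obtain ⟨N, hN⟩ : ∃ N : ℕ, ∀ m : ℕ, N ≤ m → (100 : ℝ) ≤ (m : ℝ) ^ ε := by
    have h1 : Filter.Tendsto (fun m : ℕ => (m : ℝ) ^ ε) Filter.atTop Filter.atTop :=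
      (tendsto_rpow_atTop hε0).comp tendsto_natCast_atTop_atTop
    exact Filter.eventually_atTop.1 (h1.eventually_ge_atTop 100)
  refine ⟨C + (N + 101), by positivity, fun x hx1 => ?_⟩
  have hx0 : (1 : ℝ) ≤ x := by exact_mod_cast hx1
  have hsub : ((Icc 1 x).filter fun m : ℕ => Odd m ∧ ¬ ((∀ k : ℕ, (m : ℝ) ^ ((1 - η) * (2 ^ k - 1)) ≤
          (((Icc 1 (m ^ 2 ^ k)).filter fun n => sstar^[k] n = m).card : ℝ)) ∧
        ∃ u : ℕ → ℕ, u 0 = m ∧ StrictMono u ∧ ∀ i, sstar (u (i + 1)) = u i)) ⊆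
      ((Icc 1 x).filter fun m => Odd m ∧ ∃ j, ¬ T ε j m) ∪ range (N + 101) := by
    intro m hm
    rw [mem_filter] at hm
    obtain ⟨h1, h2, h3⟩ := hm
    rw [mem_union]
    by_contra hcon
    rw [not_or, mem_filter, mem_range] at hcon
    obtain ⟨h4, h5⟩ := hcon
    have h6 : ∀ j, T ε j m := by
      by_contra h7
      push Not at h7
      exact h4 ⟨h1, h2, h7⟩
    have hm1 : 101 ≤ m := by omega
    apply h3
    refine ⟨fun k => ?_, chain hm1 h6⟩
    have h7 := An_card (η := ε) (by linarith) k m (by omega) (h6 k)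
    unfold An at h7
    refine le_trans ?_ h7
    have hm0 : (1 : ℝ) ≤ m := by exact_mod_cast (by omega : 1 ≤ m)
    have h8 : (m : ℝ) ^ (1 - ε) ≤ (m : ℝ) / 100 := by
      rw [le_div_iff₀ (by norm_num)]
      have h9 : (m : ℝ) ^ (1 - ε) * (m : ℝ) ^ ε = m := by
        rw [← Real.rpow_add (by linarith)]
        have : 1 - ε + ε = 1 := by ring
        rw [this, Real.rpow_one]
      have h10 := hN m (by omega)
      have h11 : (0 : ℝ) < (m : ℝ) ^ (1 - ε) := by positivity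
      nlinarith
    have h2k : (0 : ℝ) ≤ 2 ^ k - 1 := by
      have : (1 : ℝ) ≤ 2 ^ k := one_le_pow₀ (by norm_num)
      linarith
    have he : (0 : ℝ) ≤ (1 - ε) * (2 ^ k - 1) := mul_nonneg (by linarith) h2k
    calc (m : ℝ) ^ ((1 - η) * (2 ^ k - 1)) ≤ (m : ℝ) ^ ((1 - ε) * ((1 - ε) * (2 ^ k - 1))) := by
          apply Real.rpow_le_rpow_of_exponent_le hm0
          have : (1 - η) ≤ (1 - ε) * (1 - ε) := by nlinarith
          nlinarith
      _ = ((m : ℝ) ^ (1 - ε)) ^ ((1 - ε) * (2 ^ k - 1)) := Real.rpow_mul (by linarith) _ _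
      _ ≤ ((m : ℝ) / 100) ^ ((1 - ε) * (2 ^ k - 1)) := Real.rpow_le_rpow (by positivity) h8 he
  have h1 := hx x hx1
  have h2 : (((Icc 1 x).filter fun m : ℕ => Odd m ∧ ¬ ((∀ k : ℕ, (m : ℝ) ^ ((1 - η) * (2 ^ k - 1)) ≤
          (((Icc 1 (m ^ 2 ^ k)).filter fun n => sstar^[k] n = m).card : ℝ)) ∧
        ∃ u : ℕ → ℕ, u 0 = m ∧ StrictMono u ∧ ∀ i, sstar (u (i + 1)) = u i)).card : ℝ) ≤
      (((Icc 1 x).filter fun m => Odd m ∧ ∃ j, ¬ T ε j m).card : ℝ) + (N + 101) := by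
    have h3 := (card_le_card hsub).trans (card_union_le _ _)
    rw [card_range] at h3
    exact_mod_cast h3
  have h3 : (1 : ℝ) ≤ (x : ℝ) ^ (1 - δ / 2) := Real.one_le_rpow hx0 (by linarith)
  have h4 : (0 : ℝ) ≤ (N : ℝ) + 101 := by positivity
  nlinarith

end Pool.Agent.Work.MP_113634_past
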