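import Pool.Agent.Work.MP_113634_past.PastC

/-!
# Pasts: the upper bounds (helper2)
-/

set_option autoImplicit false

namespace Pool.Agent.Work.MP_113634_past

open Finset
open Pool.Agent.Work.MP_113634_nt (sstar usum usum_mul usum_prime sstar_add self_le_usum)
open scoped Classical

theorem usum_pp {p a : ℕ} (hp : p.Prime) (ha : 0 < a) : usum (p ^ a) = p ^ a + 1 := by
  have h0 : (p ^ a).divisors.filter (fun d => Nat.Coprime d (p ^ a / d)) = {p ^ a, 1} := by
    ext d
    simp only [Finset.mem_filter, Nat.mem_divisors, Finset.mem_insert, Finset.mem_singleton]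
    constructor
    · rintro ⟨⟨h1, _⟩, h3⟩
      obtain ⟨j, hj, rfl⟩ := (Nat.dvd_prime_pow hp).1 h1
      rw [Nat.pow_div hj hp.pos] at h3
      by_cases hj0 : j = 0
      · right
        rw [hj0, pow_zero]
      · by_cases hja : a - j = 0
        · left
          have : j = a := by omega
          rw [this]
        · exfalso
          have h4 : p ∣ Nat.gcd (p ^ j) (p ^ (a - j)) :=
            Nat.dvd_gcd (dvd_pow_self p hj0) (dvd_pow_self p hja)
          rw [h3.gcd_eq_one] at h4
          exact hp.one_lt.ne' (Nat.dvd_one.1 h4)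
    · have hpos : 0 < p ^ a := pow_pos hp.pos a
      rintro (rfl | rfl)
      · refine ⟨⟨dvd_rfl, hpos.ne'⟩, ?_⟩
        rw [Nat.div_self hpos]
        exact Nat.coprime_one_right _
      · exact ⟨⟨one_dvd _, hpos.ne'⟩, Nat.coprime_one_left _⟩
  unfold usum
  rw [h0, Finset.sum_insert, Finset.sum_singleton]
  rw [Finset.mem_singleton]
  exact (Nat.one_lt_pow ha.ne' hp.one_lt).ne'

theorem usum_ge {r : ℕ} (hr : 2 ≤ r) : r + 1 ≤ usum r := by
  unfold usum
  have h1 : ({r, 1} : Finset ℕ) ⊆ r.divisors.filter (fun d => Nat.Coprime d (r / d)) := by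
    intro d hd
    rw [mem_insert, mem_singleton] at hd
    rw [mem_filter, Nat.mem_divisors]
    rcases hd with rfl | rfl
    · rw [Nat.div_self (by omega)]
      exact ⟨⟨dvd_rfl, by omega⟩, Nat.coprime_one_right _⟩
    · exact ⟨⟨one_dvd _, by omega⟩, Nat.coprime_one_left _⟩
  have h2 := sum_le_sum_of_subset (f := fun d => d) h1
  rw [sum_insert (by rw [mem_singleton]; omega), sum_singleton] at h2
  exact h2

/-- the cofactor -/
def cof (n : ℕ) : ℕ := ordCompl[n.minFac] n

theorem split {n m : ℕ} (hm : 2 ≤ m) (h : sstar n = m) :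
    ∃ P : ℕ, n = P * cof n ∧ 2 ≤ cof n ∧ m = P * sstar (cof n) + usum (cof n) ∧ 1 ≤ P ∧ 1 ≤ sstar (cof n) := by
  have hn : 2 ≤ n := by
    rcases Nat.lt_or_ge n 2 with h1 | h1
    · interval_cases n
      · have : sstar 0 = 0 := by decide
        omega
      · have : sstar 1 = 0 := by decide
        omega
    · exact h1
  have hp : n.minFac.Prime := Nat.minFac_prime (by omega)
  obtain ⟨p, hpn⟩ : ∃ p, p = n.minFac := ⟨_, rfl⟩
  rw [← hpn] at hp
  have h1 : ordProj[p] n * ordCompl[p] n = n := Nat.ordProj_mul_ordCompl_eq_self n p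
  have h2 : (ordProj[p] n).Coprime (ordCompl[p] n) := Nat.Coprime.pow_left _ (Nat.coprime_ordCompl hp (by omega))
  have hcof : cof n = ordCompl[p] n := by rw [cof, hpn]
  have h3 : 0 < ordCompl[p] n := Nat.ordCompl_pos p (by omega)
  have h4 : 0 < ordProj[p] n := Nat.ordProj_pos n p
  have hfac : 0 < n.factorization p := by
    rw [hpn]
    exact (hpn ▸ hp : n.minFac.Prime).factorization_pos_of_dvd (by omega) (Nat.minFac_dvd n)
  have h5 : 2 ≤ ordCompl[p] n := by
    by_contra hcon
    have h6 : ordCompl[p] n = 1 := by omega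
    rw [h6, mul_one] at h1
    have h7 : sstar n = 1 := by
      unfold sstar
      nth_rewrite 1 [← h1]
      rw [usum_pp hp hfac]
      omega
    omega
  have h6 := usum_ge h5
  have h7 : sstar (ordCompl[p] n) + ordCompl[p] n = usum (ordCompl[p] n) := sstar_add h3
  refine ⟨ordProj[p] n, by rw [hcof]; exact h1.symm, by rw [hcof]; exact h5, ?_, h4, by rw [hcof]; omega⟩
  rw [hcof, ← h]
  have h8 : usum n = (ordProj[p] n + 1) * usum (ordCompl[p] n) := by
    nth_rewrite 1 [← h1]
    rw [usum_mul h4 h3 h2, usum_pp hp hfac]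
  have h9 : sstar n + n = usum n := sstar_add (by omega)
  obtain ⟨P, hP⟩ : ∃ P, P = ordProj[p] n := ⟨_, rfl⟩
  obtain ⟨r, hr⟩ : ∃ r, r = ordCompl[p] n := ⟨_, rfl⟩
  rw [← hr, ← hP] at h1 h8
  rw [← hr] at h7
  rw [← hr, ← hP]
  have h10 : sstar n + P * r = P * usum r + usum r := by
    rw [h1, h9, h8]
    ring
  rw [← h7] at h10 ⊢
  have h11 : P * (sstar r + r) = P * sstar r + P * r := by ring
  rw [h11] at h10
  omega

theorem pre_le {n m : ℕ} (hm : 2 ≤ m) (h : sstar n = m) : cof n < m ∧ n ≤ m ^ 2 ∧ 2 ≤ n := by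
  obtain ⟨P, h1, h2, h3, h4, h5⟩ := split hm h
  have h6 := usum_ge h2
  have h7 : P ≤ P * sstar (cof n) := Nat.le_mul_of_pos_right _ h5
  refine ⟨by omega, ?_, ?_⟩
  · rw [h1, sq]
    exact Nat.mul_le_mul (by omega) (by omega)
  · have : cof n ≤ P * cof n := Nat.le_mul_of_pos_left _ h4
    omega

theorem pre_inj {n n' m : ℕ} (hm : 2 ≤ m) (h : sstar n = m) (h' : sstar n' = m) (hc : cof n = cof n') : n = n' := by
  obtain ⟨P, h1, h2, h3, h4, h5⟩ := split hm h
  obtain ⟨P', h1', h2', h3', h4', h5'⟩ := split hm h'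
  rw [← hc] at h3' h1'
  have h6 : P * sstar (cof n) = P' * sstar (cof n) := by omega
  have h7 : P = P' := Nat.eq_of_mul_eq_mul_right h5 h6
  rw [h1, h1', h7]

theorem pre_card {m : ℕ} (hm : 2 ≤ m) : ((Icc 1 (m ^ 2)).filter fun n => sstar n = m).card ≤ m := by
  have h1 : ((Icc 1 (m ^ 2)).filter fun n => sstar n = m).card ≤ (range m).card := by
    apply card_le_card_of_injOn cof
    · intro n hn
      rw [mem_coe, mem_filter] at hn
      rw [mem_coe, mem_range]
      exact (pre_le hm hn.2).1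
    · intro n hn n' hn' h
      rw [mem_coe, mem_filter] at hn hn'
      exact pre_inj hm hn.2 hn'.2 h
  rwa [card_range] at h1

/-- the upper bounds -/
theorem upper : ∀ k m : ℕ, 2 ≤ m → (∀ n, sstar^[k] n = m → n ≤ m ^ 2 ^ k ∧ 2 ≤ n) ∧
    (An k m).card ≤ m ^ (2 ^ k - 1) := by
  intro k
  induction k with
  | zero =>
    intro m hm
    refine ⟨fun n hn => ?_, ?_⟩
    · rw [Function.iterate_zero, id] at hn
      rw [hn]
      simp only [pow_zero, pow_one]
      exact ⟨le_rfl, hm⟩
    · have h1 : An 0 m ⊆ {m} := by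
        intro n hn
        rw [An, mem_filter] at hn
        rw [mem_singleton]
        exact hn.2
      have := card_le_card h1
      rw [card_singleton] at this
      simpa using this
  | succ k ih =>
    intro m hm
    have hp : m ^ 2 ^ (k + 1) = (m ^ 2) ^ 2 ^ k := by rw [← pow_mul, pow_succ, mul_comm]
    have hup : ∀ n, sstar^[k + 1] n = m → n ≤ m ^ 2 ^ (k + 1) ∧ 2 ≤ n := by
      intro n hn
      rw [Function.iterate_succ_apply'] at hn
      obtain ⟨h1, h2, h3⟩ := pre_le hm hn
      obtain ⟨h4, h5⟩ := (ih _ h3).1 n rfl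
      refine ⟨h4.trans ?_, h5⟩
      rw [hp]
      exact Nat.pow_le_pow_left h2 _
    refine ⟨hup, ?_⟩
    have hsub : An (k + 1) m ⊆ ((Icc 1 (m ^ 2)).filter fun n => sstar n = m).biUnion fun n => An k n := by
      intro n hn
      rw [An, mem_filter, mem_Icc] at hn
      obtain ⟨h0, hn⟩ := hn
      rw [Function.iterate_succ_apply'] at hn
      obtain ⟨h1, h2, h3⟩ := pre_le hm hn
      rw [mem_biUnion]
      refine ⟨sstar^[k] n, ?_, ?_⟩
      · rw [mem_filter, mem_Icc]
        exact ⟨⟨by omega, h2⟩, hn⟩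
      · rw [An, mem_filter, mem_Icc]
        exact ⟨⟨h0.1, ((ih _ h3).1 n rfl).1⟩, rfl⟩
    have h1 := (card_le_card hsub).trans card_biUnion_le
    have h2 : ∀ n ∈ (Icc 1 (m ^ 2)).filter (fun n => sstar n = m), (An k n).card ≤ (m ^ 2) ^ (2 ^ k - 1) := by
      intro n hn
      rw [mem_filter] at hn
      obtain ⟨a1, a2, a3⟩ := pre_le hm hn.2
      exact ((ih n a3).2).trans (Nat.pow_le_pow_left a2 _)
    have h3 := h1.trans (sum_le_card_nsmul _ _ _ h2)
    refine h3.trans ?_
    rw [smul_eq_mul]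
    have h4 := Nat.mul_le_mul_right ((m ^ 2) ^ (2 ^ k - 1)) (pre_card hm)
    refine h4.trans (le_of_eq ?_)
    rw [← pow_mul, ← pow_succ']
    congr 1
    have : 1 ≤ 2 ^ k := Nat.one_le_two_pow
    rw [pow_succ 2 k]
    omega

end Pool.Agent.Work.MP_113634_past
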